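import Pool.Agent.H977.CS.CEnd

set_option autoImplicit false

/-!
# Class group characters at the tiny prime ideals

Let `K = ℚ(√d)` have class number `h`, let `B = (log d)^a` with `a > 1`, and let `κ > 0` with
`2 κ < 1 - 1/a`.  Put `γ = max (κ / (1 - 1/a)) (2 κ + 1/a - 1/2)`; so `γ < 1/2`, and
`γ = κ / (1 - 1/a)` if `a ≥ 2` and `κ` is small.  For every `ε > 0` the following holds for all but
`O(X^(1-δ))` of the squarefree `d ≤ X`, with some `δ > 0`; in particular for all but `O(X^(1-δ))` of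
the primes `d = p ≤ X`.

* For every function `c` on the ideals with `|c| ≤ 1`, all but at most `d^(γ+ε)` of the `h` characters `χ`
  of the class group satisfy `|∑ c(P) χ(P)| < B^(1-κ)`, the sum over the prime ideals `P` whose norm is a
  prime up to `B`.
* The number of the pairs of such prime ideals that are in the same ideal class is at most
  `B^(2-2κ) + 4 B^2 d^(γ+ε) / h`.

So if the class number is large, then the tiny prime ideals lie in many different classes, and
`h ≤ 4 B^(2κ) d^(γ+ε)` if at least `2 B^(2-2κ)` pairs of tiny prime ideals are in the same class.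
-/

namespace Pool.Agent.Results.MP_d0fd9b_nt.CharactersAtTinyPrimes

open Finset NumberField
open scoped Classical

/-- The exponent `γ` for the exponents `a` and `κ`. -/
noncomputable def gamma (a κ : ℝ) : ℝ := max (κ / (1 - 1 / a)) (2 * κ + 1 / a - 1 / 2)

theorem finite_tiny (K : Type) [Field K] [NumberField K] (B : ℝ) :
    {P : nonZeroDivisors (Ideal (𝓞 K)) | (P : Ideal (𝓞 K)).IsPrime ∧
      (Ideal.absNorm (P : Ideal (𝓞 K))).Prime ∧
      ((Ideal.absNorm (P : Ideal (𝓞 K)) : ℕ) : ℝ) ≤ B}.Finite := by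
  refine (Ideal.finite_setOfPred_absNorm_le₀ (S := 𝓞 K) ⌊B⌋₊).subset ?_
  rintro P ⟨-, h2, h3⟩
  exact (Nat.le_floor_iff' h2.ne_zero).2 h3

/-- The prime ideals whose norm is a prime number up to `B`. -/
noncomputable def tiny (K : Type) [Field K] [NumberField K] (B : ℝ) :
    Finset (nonZeroDivisors (Ideal (𝓞 K))) := (finite_tiny K B).toFinset

/-- For every function `c` on the ideals with `|c| ≤ 1`, all but at most `M` characters `χ` of the class
group have a sum `∑ c(P) χ(P)` over `tiny K B` smaller than `B^(1-κ)`. -/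
def FewLargeSums (K : Type) [Field K] [NumberField K] (B κ M : ℝ) : Prop :=
  ∀ c : nonZeroDivisors (Ideal (𝓞 K)) → ℂ, (∀ P, ‖c P‖ ≤ 1) →
    ∃ E : Finset (ClassGroup (𝓞 K) →* ℂ), (E.card : ℝ) ≤ M ∧
      ∀ χ, χ ∉ E → ‖∑ P ∈ tiny K B, c P * χ (ClassGroup.mk0 P)‖ < B ^ (1 - κ)

/-- The number of the pairs of members of `tiny K B` that are in the same ideal class. -/
noncomputable def pairs (K : Type) [Field K] [NumberField K] (B : ℝ) : ℕ :=
  ((tiny K B ×ˢ tiny K B).filter (fun x => ClassGroup.mk0 x.1 = ClassGroup.mk0 x.2)).card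

/-- The property of the integer `d` in the theorem; `e` is the exponent `γ + ε`. -/
def Good (a κ e : ℝ) (d : ℕ) : Prop :=
  ∀ (K : Type) [Field K] [NumberField K], Module.finrank ℚ K = 2 → (∃ x : K, x ^ 2 = (d : K)) →
    FewLargeSums K ((Real.log d) ^ a) κ ((d : ℝ) ^ e) ∧
    (pairs K ((Real.log d) ^ a) : ℝ) ≤ ((Real.log d) ^ a) ^ (2 - 2 * κ) +
      4 * ((Real.log d) ^ a) ^ 2 * (d : ℝ) ^ e / Nat.card (ClassGroup (𝓞 K))

section

open Pool.Agent.H977.CS

theorem mem_tiny {K : Type} [Field K] [NumberField K] {B : ℝ}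
    {P : nonZeroDivisors (Ideal (𝓞 K))} : P ∈ tiny K B ↔ (P : Ideal (𝓞 K)).IsPrime ∧
      (Ideal.absNorm (P : Ideal (𝓞 K))).Prime ∧
      ((Ideal.absNorm (P : Ideal (𝓞 K)) : ℕ) : ℝ) ≤ B := by
  unfold tiny
  rw [Set.Finite.mem_toFinset]
  rfl

theorem sum_tiny {K : Type} [Field K] [NumberField K] (B : ℝ)
    (f : nonZeroDivisors (Ideal (𝓞 K)) → ℂ) :
    ∑ P ∈ tiny K B, f P = ∑ p ∈ PB B, ∑ P ∈ pr K p, f P := by
  rw [← Finset.sum_fiberwise_of_maps_to (s := tiny K B) (t := PB B)
    (g := fun P => Ideal.absNorm (P : Ideal (𝓞 K)))]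
  · refine Finset.sum_congr rfl fun p hp => Finset.sum_congr ?_ fun _ _ => rfl
    unfold PB at hp
    obtain ⟨h1, h2⟩ := Finset.mem_filter.1 hp
    ext P
    rw [Finset.mem_filter, mem_pr, mem_tiny]
    constructor
    · rintro ⟨-, h⟩
      exact h
    · intro h
      refine ⟨⟨?_, ?_, ?_⟩, h⟩
      · apply Ideal.isPrime_of_irreducible_absNorm
        rw [h]
        exact h2
      · rw [h]
        exact h2
      · rw [h]
        exact (Nat.le_floor_iff' h2.ne_zero).1 (Finset.mem_Icc.1 h1).2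
  · intro P hP
    obtain ⟨-, h2, h3⟩ := mem_tiny.1 hP
    unfold PB
    rw [Finset.mem_filter, Finset.mem_Icc]
    exact ⟨⟨h2.one_lt.le, (Nat.le_floor_iff' h2.ne_zero).2 h3⟩, h2⟩

theorem lam_eq {K : Type} [Field K] [NumberField K] (B : ℝ)
    (c : nonZeroDivisors (Ideal (𝓞 K)) → ℂ) (χ : Chr K) :
    ∑ p ∈ PB B, lam c χ p = ∑ P ∈ tiny K B, c P * χ (Additive.ofMul (ClassGroup.mk0 P)) :=
  (sum_tiny B _).symm

/-- a multiplicative character as an additive one -/
noncomputable def toAdd {K : Type} [Field K] [NumberField K] (χ : ClassGroup (𝓞 K) →* ℂ) : Chr K where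
  toFun x := χ x.toMul
  map_zero_eq_one' := by simp
  map_add_eq_mul' x y := by simp

theorem toAdd_apply {K : Type} [Field K] [NumberField K] (χ : ClassGroup (𝓞 K) →* ℂ)
    (C : ClassGroup (𝓞 K)) : toAdd χ (Additive.ofMul C) = χ C := rfl

theorem toAdd_inj {K : Type} [Field K] [NumberField K] :
    Function.Injective (toAdd (K := K)) := by
  intro χ ψ h
  ext C
  rw [← toAdd_apply, h, toAdd_apply]

theorem tiny_card (K : Type) [Field K] [NumberField K] (d : ℕ) (hd : 1 < d) (hsq : Squarefree d)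
    (h2 : Module.finrank ℚ K = 2) (hx : ∃ x : K, x ^ 2 = (d : K)) (B : ℝ) (hB : 0 ≤ B) :
    ((tiny K B).card : ℝ) ≤ 2 * B := by
  have hN2 : Pool.Agent.H38R2.CG.P_N2 :=
    Pool.Agent.H38R2.CG.T_N2 (Pool.Agent.H38R2.CG.T_SPL Pool.Agent.H38R2.CG.T_N0)
  have hfund := Pool.Agent.R345.IX.isFund_Dof hd hsq
  have hdisc : NumberField.discr K = ((Pool.Agent.R345.IX.Dof d : ℕ) : ℤ) := by
    rw [Pool.Agent.H38R2.CG.T_N0d K d hd hsq h2 hx]
    unfold Pool.Agent.R345.IX.Dof
    split_ifs <;> push_cast <;> rfl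
  have h := sum_tiny (K := K) B (fun _ => 1)
  have h3 : ((tiny K B).card : ℝ) = ‖∑ P ∈ tiny K B, (1 : ℂ)‖ := by
    rw [Finset.sum_const, nsmul_eq_mul, mul_one, Complex.norm_natCast]
  rw [h3, h]
  refine (norm_sum_le _ _).trans ?_
  calc ∑ p ∈ PB B, ‖∑ P ∈ pr K p, (1 : ℂ)‖ ≤ ∑ p ∈ PB B, (2 : ℝ) := by
        refine Finset.sum_le_sum fun p hp => ?_
        rw [Finset.sum_const, nsmul_eq_mul, mul_one, Complex.norm_natCast]
        have := pr_card_le hN2 K _ hfund h2 hdisc p (Finset.mem_filter.1 hp).2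
        exact_mod_cast this
    _ = 2 * ((PB B).card : ℝ) := by rw [Finset.sum_const, nsmul_eq_mul, mul_comm]
    _ ≤ 2 * B := by
        have h4 : (PB B).card ≤ ⌊B⌋₊ := by
          unfold PB
          refine (Finset.card_filter_le _ _).trans ?_
          rw [Nat.card_Icc]
          omega
        have h5 : ((PB B).card : ℝ) ≤ B :=
          le_trans (by exact_mod_cast h4) (Nat.floor_le hB)
        linarith

theorem pairs_eq (K : Type) [Field K] [NumberField K] (S : Finset (nonZeroDivisors (Ideal (𝓞 K)))) :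
    (∑ χ : Chr K, ‖∑ P ∈ S, χ (Additive.ofMul (ClassGroup.mk0 P))‖ ^ 2) =
      Nat.card (ClassGroup (𝓞 K)) *
        (((S ×ˢ S).filter (fun x => ClassGroup.mk0 x.1 = ClassGroup.mk0 x.2)).card : ℝ) := by
  set N : Additive (ClassGroup (𝓞 K)) → ℂ := fun g =>
    (((S.filter (fun P => Additive.ofMul (ClassGroup.mk0 P) = g)).card : ℕ) : ℂ) with hN
  have h1 := parseval N
  have h2 : ∀ χ : Chr K, ∑ g, N g * χ g = ∑ P ∈ S, χ (Additive.ofMul (ClassGroup.mk0 P)) := by
    intro χ
    rw [← Finset.sum_fiberwise_of_maps_to (s := S)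
      (t := (Finset.univ : Finset (Additive (ClassGroup (𝓞 K)))))
      (g := fun P => Additive.ofMul (ClassGroup.mk0 P)) (fun _ _ => Finset.mem_univ _)]
    refine Finset.sum_congr rfl fun g _ => ?_
    rw [Finset.sum_congr rfl (g := fun _ => χ g)
      (fun P hP => by rw [(Finset.mem_filter.1 hP).2]), Finset.sum_const, nsmul_eq_mul]
  rw [Finset.sum_congr rfl fun χ _ => by rw [← h2 χ]]
  rw [h1]
  have h3 : (Fintype.card (Additive (ClassGroup (𝓞 K))) : ℝ) = Nat.card (ClassGroup (𝓞 K)) := by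
    rw [← Nat.card_eq_fintype_card]
    rfl
  rw [h3]
  congr 1
  have h4 : ((S ×ˢ S).filter (fun x => ClassGroup.mk0 x.1 = ClassGroup.mk0 x.2)).card =
      ∑ g : Additive (ClassGroup (𝓞 K)),
        (S.filter (fun P => Additive.ofMul (ClassGroup.mk0 P) = g)).card ^ 2 := by
    rw [Finset.card_eq_sum_card_fiberwise
      (t := (Finset.univ : Finset (Additive (ClassGroup (𝓞 K)))))
      (f := fun x => Additive.ofMul (ClassGroup.mk0 x.1)) (fun _ _ => Finset.mem_coe.2 (Finset.mem_univ _))]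
    refine Finset.sum_congr rfl fun g _ => ?_
    rw [sq, ← Finset.card_product]
    congr 1
    ext ⟨P, Q⟩
    simp only [Finset.mem_filter, Finset.mem_product]
    constructor
    · rintro ⟨⟨⟨h1, h2⟩, h3⟩, h4⟩
      exact ⟨⟨h1, h4⟩, h2, by rw [← h3]; exact h4⟩
    · rintro ⟨⟨h1, h2⟩, h3, h4⟩
      refine ⟨⟨⟨h1, h3⟩, ?_⟩, h2⟩
      have := h2.trans h4.symm
      exact Additive.ofMul.injective this
  rw [h4]
  push_cast
  refine Finset.sum_congr rfl fun g _ => ?_
  rw [hN, Complex.norm_natCast]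

theorem good_of (a κ e : ℝ) (d : ℕ) (hd : 1 < d) (hsq : Squarefree d)
    (h : GoodC a κ e d) : Good a κ e d := by
  intro K _ _ hK hx
  have hG := h K hK hx
  have hlog : 0 < Real.log d := Real.log_pos (by exact_mod_cast hd)
  set B : ℝ := (Real.log d) ^ a with hB
  have hB0 : 0 < B := Real.rpow_pos_of_pos hlog a
  refine ⟨?_, ?_⟩
  · unfold FewLargeSums
    intro c hc
    have h1 := hG c hc
    set F := (Finset.univ : Finset (Chr K)).filter (fun χ => B ^ (1 - κ) ≤
        ‖∑ p ∈ PB B, lam c χ p‖) with hF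
    refine ⟨F.preimage toAdd (toAdd_inj.injOn), ?_, ?_⟩
    · refine le_trans ?_ h1
      have : (F.preimage toAdd (toAdd_inj.injOn)).card ≤ F.card := by
        refine Finset.card_le_card_of_injOn toAdd ?_ toAdd_inj.injOn
        intro χ hχ
        rw [Finset.mem_coe, Finset.mem_preimage] at hχ
        exact Finset.mem_coe.2 hχ
      exact_mod_cast this
    · intro χ hχ
      rw [Finset.mem_preimage, hF, Finset.mem_filter] at hχ
      push Not at hχ
      have := hχ (Finset.mem_univ _)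
      rw [lam_eq] at this
      exact this
  · unfold pairs
    have h1 := hG (fun _ => 1) (fun _ => by simp)
    set F := (Finset.univ : Finset (Chr K)).filter (fun χ => B ^ (1 - κ) ≤
        ‖∑ p ∈ PB B, lam (fun _ => 1) χ p‖) with hF
    have hlam : ∀ χ : Chr K, ∑ p ∈ PB B, lam (fun _ => 1) χ p =
        ∑ P ∈ tiny K B, χ (Additive.ofMul (ClassGroup.mk0 P)) := by
      intro χ
      rw [lam_eq]
      exact Finset.sum_congr rfl fun _ _ => one_mul _
    have hp := pairs_eq K (tiny K B)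
    have hh : (0 : ℝ) < Nat.card (ClassGroup (𝓞 K)) := by exact_mod_cast Nat.card_pos
    have hcard : (Fintype.card (Chr K) : ℝ) = Nat.card (ClassGroup (𝓞 K)) := by
      have : Fintype.card (Chr K) = Fintype.card (Additive (ClassGroup (𝓞 K))) :=
        AddChar.card_eq
      rw [this, ← Nat.card_eq_fintype_card]
      rfl
    have htc := tiny_card K d hd hsq hK hx B hB0.le
    have hnorm : ∀ χ : Chr K, ‖∑ P ∈ tiny K B, χ (Additive.ofMul (ClassGroup.mk0 P))‖ ≤ 2 * B := by
      intro χ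
      refine (norm_sum_le _ _).trans (le_trans (le_of_eq ?_) htc)
      rw [Finset.sum_congr rfl fun P _ => AddChar.norm_apply χ _, Finset.sum_const, nsmul_eq_mul,
        mul_one]
    have hsum : (∑ χ : Chr K, ‖∑ P ∈ tiny K B, χ (Additive.ofMul (ClassGroup.mk0 P))‖ ^ 2) ≤
        Nat.card (ClassGroup (𝓞 K)) * B ^ (2 - 2 * κ) + 4 * B ^ 2 * (d : ℝ) ^ e := by
      rw [← Finset.sum_filter_add_sum_filter_not Finset.univ (fun χ : Chr K => χ ∈ F)]
      have e1 : ∑ χ ∈ (Finset.univ : Finset (Chr K)).filter (fun χ => χ ∈ F),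
          ‖∑ P ∈ tiny K B, χ (Additive.ofMul (ClassGroup.mk0 P))‖ ^ 2 ≤ 4 * B ^ 2 * (d : ℝ) ^ e := by
        calc _ ≤ ∑ χ ∈ (Finset.univ : Finset (Chr K)).filter (fun χ => χ ∈ F), (2 * B) ^ 2 := by
              refine Finset.sum_le_sum fun χ _ => ?_
              exact pow_le_pow_left₀ (norm_nonneg _) (hnorm χ) 2
          _ = ((F.card : ℕ) : ℝ) * (2 * B) ^ 2 := by
              rw [Finset.sum_const, nsmul_eq_mul]
              congr 3
              ext χ
              simp
          _ ≤ (d : ℝ) ^ e * (2 * B) ^ 2 := by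
              apply mul_le_mul_of_nonneg_right h1 (by positivity)
          _ = _ := by ring
      have e2 : ∑ χ ∈ (Finset.univ : Finset (Chr K)).filter (fun χ => ¬ χ ∈ F),
          ‖∑ P ∈ tiny K B, χ (Additive.ofMul (ClassGroup.mk0 P))‖ ^ 2 ≤
          Nat.card (ClassGroup (𝓞 K)) * B ^ (2 - 2 * κ) := by
        have hsq' : (B ^ (1 - κ)) ^ 2 = B ^ (2 - 2 * κ) := by
          rw [← Real.rpow_natCast, ← Real.rpow_mul hB0.le]
          congr 1
          push_cast
          ring
        calc _ ≤ ∑ χ ∈ (Finset.univ : Finset (Chr K)).filter (fun χ => ¬ χ ∈ F),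
              (B ^ (1 - κ)) ^ 2 := by
              refine Finset.sum_le_sum fun χ hχ => ?_
              refine pow_le_pow_left₀ (norm_nonneg _) ?_ 2
              have h5 := (Finset.mem_filter.1 hχ).2
              rw [hF, Finset.mem_filter] at h5
              push Not at h5
              have := h5 (Finset.mem_univ _)
              rw [hlam] at this
              exact this.le
          _ = (((Finset.univ : Finset (Chr K)).filter (fun χ => ¬ χ ∈ F)).card : ℝ) *
              B ^ (2 - 2 * κ) := by rw [Finset.sum_const, nsmul_eq_mul, hsq']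
          _ ≤ _ := by
              apply mul_le_mul_of_nonneg_right _ (by positivity)
              rw [← hcard]
              exact_mod_cast (Finset.card_filter_le _ _).trans (le_of_eq Finset.card_univ)
      linarith
    rw [hp] at hsum
    rw [← sub_nonneg]
    have : 0 ≤ Nat.card (ClassGroup (𝓞 K)) * (B ^ (2 - 2 * κ) +
        4 * B ^ 2 * (d : ℝ) ^ e / Nat.card (ClassGroup (𝓞 K)) -
        (((tiny K B ×ˢ tiny K B).filter
        (fun x => ClassGroup.mk0 x.1 = ClassGroup.mk0 x.2)).card : ℝ)) := by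
      have e3 : (Nat.card (ClassGroup (𝓞 K)) : ℝ) * (4 * B ^ 2 * (d : ℝ) ^ e /
          Nat.card (ClassGroup (𝓞 K))) = 4 * B ^ 2 * (d : ℝ) ^ e := by
        field_simp
      rw [mul_sub, mul_add, e3]
      linarith
    exact nonneg_of_mul_nonneg_right this hh

end

/-- For all `a > 1`, `κ > 0` with `2 κ < 1 - 1/a` and `ε > 0` all but `O(X^(1-δ))` of the squarefree
`d ≤ X` have the property `Good a κ (γ + ε) d`, for some `δ > 0`. -/
theorem result : ∀ a κ ε : ℝ, 1 < a → 0 < κ → 2 * κ < 1 - 1 / a → 0 < ε →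
    ∃ δ C : ℝ, 0 < δ ∧ 0 < C ∧
    ∀ X : ℕ, (((Finset.Icc 2 X).filter (fun d => Squarefree d ∧
      ¬ Good a κ (gamma a κ + ε) d)).card : ℝ) ≤ C * (X : ℝ) ^ (1 - δ) := by
  intro a κ ε ha hκ hκ2 hε
  obtain ⟨δ, C, hδ, hC, h⟩ := Pool.Agent.H977.CS.main a κ ε ha hκ.le hκ2 hε
  refine ⟨δ, C, hδ, hC, fun X => le_trans ?_ (h X)⟩
  have hsub : (Finset.Icc 2 X).filter (fun d => Squarefree d ∧ ¬ Good a κ (gamma a κ + ε) d) ⊆
      (Finset.Icc 2 X).filter (fun d => Squarefree d ∧
        ¬ Pool.Agent.H977.CS.GoodC a κ (Pool.Agent.H977.CS.gam a κ + ε) d) := by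
    intro d hd
    rw [Finset.mem_filter] at hd ⊢
    exact ⟨hd.1, hd.2.1, fun hg => hd.2.2
      (good_of a κ _ d (Finset.mem_Icc.1 hd.1).1 hd.2.1 hg)⟩
  exact_mod_cast Finset.card_le_card hsub

end Pool.Agent.Results.MP_d0fd9b_nt.CharactersAtTinyPrimes
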